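import Pool.Agent.TH462.PW.Main
import Pool.Agent.TH462.PW.D4.C0
import Pool.Agent.TH462.PW.D4.C1

set_option autoImplicit false

namespace Pool.Agent.TH462.PW.D4

open Pool.Agent.TH462.PW

def Q (s : St) : Prop := ∃ c, chk dflt env tb 4 s c = true

theorem a5_0 : AllT Q n5_0 := ⟨⟨_, c0⟩, ⟨_, c32⟩⟩
theorem a5_1 : AllT Q n5_1 := ⟨⟨_, c1⟩, ⟨_, c33⟩⟩
theorem a5_2 : AllT Q n5_2 := ⟨⟨_, c2⟩, ⟨_, c34⟩⟩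
theorem a5_3 : AllT Q n5_3 := ⟨⟨_, c3⟩, ⟨_, c35⟩⟩
theorem a5_4 : AllT Q n5_4 := ⟨⟨_, c4⟩, ⟨_, c36⟩⟩
theorem a5_5 : AllT Q n5_5 := ⟨⟨_, c5⟩, ⟨_, c37⟩⟩
theorem a5_6 : AllT Q n5_6 := ⟨⟨_, c6⟩, ⟨_, c38⟩⟩
theorem a5_7 : AllT Q n5_7 := ⟨⟨_, c7⟩, ⟨_, c39⟩⟩
theorem a5_8 : AllT Q n5_8 := ⟨⟨_, c8⟩, ⟨_, c40⟩⟩
theorem a5_9 : AllT Q n5_9 := ⟨⟨_, c9⟩, ⟨_, c41⟩⟩
theorem a5_10 : AllT Q n5_10 := ⟨⟨_, c10⟩, ⟨_, c42⟩⟩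
theorem a5_11 : AllT Q n5_11 := ⟨⟨_, c11⟩, ⟨_, c43⟩⟩
theorem a5_12 : AllT Q n5_12 := ⟨⟨_, c12⟩, ⟨_, c44⟩⟩
theorem a5_13 : AllT Q n5_13 := ⟨⟨_, c13⟩, ⟨_, c45⟩⟩
theorem a5_14 : AllT Q n5_14 := ⟨⟨_, c14⟩, ⟨_, c46⟩⟩
theorem a5_15 : AllT Q n5_15 := ⟨⟨_, c15⟩, ⟨_, c47⟩⟩
theorem a5_16 : AllT Q n5_16 := ⟨⟨_, c16⟩, ⟨_, c48⟩⟩
theorem a5_17 : AllT Q n5_17 := ⟨⟨_, c17⟩, ⟨_, c49⟩⟩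
theorem a5_18 : AllT Q n5_18 := ⟨⟨_, c18⟩, ⟨_, c50⟩⟩
theorem a5_19 : AllT Q n5_19 := ⟨⟨_, c19⟩, ⟨_, c51⟩⟩
theorem a5_20 : AllT Q n5_20 := ⟨⟨_, c20⟩, ⟨_, c52⟩⟩
theorem a5_21 : AllT Q n5_21 := ⟨⟨_, c21⟩, ⟨_, c53⟩⟩
theorem a5_22 : AllT Q n5_22 := ⟨⟨_, c22⟩, ⟨_, c54⟩⟩
theorem a5_23 : AllT Q n5_23 := ⟨⟨_, c23⟩, ⟨_, c55⟩⟩
theorem a5_24 : AllT Q n5_24 := ⟨⟨_, c24⟩, ⟨_, c56⟩⟩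
theorem a5_25 : AllT Q n5_25 := ⟨⟨_, c25⟩, ⟨_, c57⟩⟩
theorem a5_26 : AllT Q n5_26 := ⟨⟨_, c26⟩, ⟨_, c0⟩⟩
theorem a5_27 : AllT Q n5_27 := ⟨⟨_, c27⟩, ⟨_, c0⟩⟩
theorem a5_28 : AllT Q n5_28 := ⟨⟨_, c28⟩, ⟨_, c0⟩⟩
theorem a5_29 : AllT Q n5_29 := ⟨⟨_, c29⟩, ⟨_, c0⟩⟩
theorem a5_30 : AllT Q n5_30 := ⟨⟨_, c30⟩, ⟨_, c0⟩⟩
theorem a5_31 : AllT Q n5_31 := ⟨⟨_, c31⟩, ⟨_, c0⟩⟩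
theorem a4_0 : AllT Q n4_0 := ⟨a5_0, a5_16⟩
theorem a4_1 : AllT Q n4_1 := ⟨a5_1, a5_17⟩
theorem a4_2 : AllT Q n4_2 := ⟨a5_2, a5_18⟩
theorem a4_3 : AllT Q n4_3 := ⟨a5_3, a5_19⟩
theorem a4_4 : AllT Q n4_4 := ⟨a5_4, a5_20⟩
theorem a4_5 : AllT Q n4_5 := ⟨a5_5, a5_21⟩
theorem a4_6 : AllT Q n4_6 := ⟨a5_6, a5_22⟩
theorem a4_7 : AllT Q n4_7 := ⟨a5_7, a5_23⟩
theorem a4_8 : AllT Q n4_8 := ⟨a5_8, a5_24⟩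
theorem a4_9 : AllT Q n4_9 := ⟨a5_9, a5_25⟩
theorem a4_10 : AllT Q n4_10 := ⟨a5_10, a5_26⟩
theorem a4_11 : AllT Q n4_11 := ⟨a5_11, a5_27⟩
theorem a4_12 : AllT Q n4_12 := ⟨a5_12, a5_28⟩
theorem a4_13 : AllT Q n4_13 := ⟨a5_13, a5_29⟩
theorem a4_14 : AllT Q n4_14 := ⟨a5_14, a5_30⟩
theorem a4_15 : AllT Q n4_15 := ⟨a5_15, a5_31⟩
theorem a3_0 : AllT Q n3_0 := ⟨a4_0, a4_8⟩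
theorem a3_1 : AllT Q n3_1 := ⟨a4_1, a4_9⟩
theorem a3_2 : AllT Q n3_2 := ⟨a4_2, a4_10⟩
theorem a3_3 : AllT Q n3_3 := ⟨a4_3, a4_11⟩
theorem a3_4 : AllT Q n3_4 := ⟨a4_4, a4_12⟩
theorem a3_5 : AllT Q n3_5 := ⟨a4_5, a4_13⟩
theorem a3_6 : AllT Q n3_6 := ⟨a4_6, a4_14⟩
theorem a3_7 : AllT Q n3_7 := ⟨a4_7, a4_15⟩
theorem a2_0 : AllT Q n2_0 := ⟨a3_0, a3_4⟩
theorem a2_1 : AllT Q n2_1 := ⟨a3_1, a3_5⟩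
theorem a2_2 : AllT Q n2_2 := ⟨a3_2, a3_6⟩
theorem a2_3 : AllT Q n2_3 := ⟨a3_3, a3_7⟩
theorem a1_0 : AllT Q n1_0 := ⟨a2_0, a2_2⟩
theorem a1_1 : AllT Q n1_1 := ⟨a2_1, a2_3⟩
theorem a0_0 : AllT Q n0_0 := ⟨a1_0, a1_1⟩

theorem dflt_eq : dflt = mkSwR 4 0 1 := by decide +kernel

theorem env_ok : env.OK 4 dflt := by
  rw [env_eq, dflt_eq]
  exact mkEnv_ok (by norm_num)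

theorem all_ok (i : ℕ) : ∃ c, chk dflt env tb 4 (tb.get i) c = true :=
  AllT.get (Q := Q) (t := tb) a0_0 i

theorem flow {V E : Type} [Fintype V] [DecidableEq V] [Fintype E] [DecidableEq E]
    (src dst : E → V) (hb : ∀ Y, (dlt src dst Y).card ≠ 1) (hPD : HasPD 5 src dst) :
    NZF src dst :=
  flow_of_table env_ok (by norm_num) all_ok (by decide +kernel) (by decide +kernel)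
    (by decide +kernel) (by decide +kernel) src dst hb hPD

end Pool.Agent.TH462.PW.D4
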